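import Mathlib.Analysis.Complex.Trigonometric
import Mathlib.Order.CompletePartialOrder

namespace Pool.Agent.MP_a421c2_co

open Set

/-- The closed square with a vertex at `(x, y)`, side length `s`, and sides in the directions
`(cos θ, sin θ)` and `(-sin θ, cos θ)`. -/
def square (x y θ s : ℝ) : Set (ℝ × ℝ) :=
  {z | ∃ u ∈ Icc 0 s, ∃ v ∈ Icc 0 s,
    z = (x + u * Real.cos θ - v * Real.sin θ, y + u * Real.sin θ + v * Real.cos θ)}

/-- `f r`: the supremum of the total side length of `r` closed squares (any position and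
orientation, side `0` allowed) inside the unit square with pairwise disjoint interiors. -/
noncomputable def f (r : ℕ) : ℝ :=
  sSup {S | ∃ x y θ s : Fin r → ℝ, (∀ i, 0 ≤ s i) ∧
    (∀ i, square (x i) (y i) (θ i) (s i) ⊆ Icc 0 1 ×ˢ Icc 0 1) ∧
    (∀ i j, i ≠ j → Disjoint (interior (square (x i) (y i) (θ i) (s i)))
      (interior (square (x j) (y j) (θ j) (s j)))) ∧
    S = ∑ i, s i}

end Pool.Agent.MP_a421c2_co
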