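import Mathlib.Algebra.BigOperators.Fin
import Mathlib.Tactic.LinearCombination
import Mathlib.Tactic.Monotonicity.Lemmas
import Mathlib.Tactic.Bound
import Mathlib.Algebra.Order.Star.Real
import Mathlib.Tactic.Algebra.Basic
import Pool.Agent.MP_a421c2_co.Defs

/-! A small calculus of packings of squares. -/

namespace Pool.Agent.MP_a421c2_co

open Set Filter Topology

/-- two sets are separated by a line -/
def Sep (A B : Set (ℝ × ℝ)) : Prop :=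
  ∃ a b d : ℝ, 0 < a ^ 2 + b ^ 2 ∧ (∀ z ∈ A, a * z.1 + b * z.2 ≤ d) ∧
    ∀ z ∈ B, d ≤ a * z.1 + b * z.2

lemma Sep.symm {A B : Set (ℝ × ℝ)} (h : Sep A B) : Sep B A := by
  obtain ⟨a, b, d, h0, h1, h2⟩ := h
  exact ⟨-a, -b, -d, by linarith [neg_sq a, neg_sq b], fun z hz => by linarith [h2 z hz],
    fun z hz => by linarith [h1 z hz]⟩

lemma Sep.mono {A B A' B' : Set (ℝ × ℝ)} (h : Sep A B) (hA : A' ⊆ A) (hB : B' ⊆ B) :
    Sep A' B' := by
  obtain ⟨a, b, d, h0, h1, h2⟩ := h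
  exact ⟨a, b, d, h0, fun z hz => h1 z (hA hz), fun z hz => h2 z (hB hz)⟩

lemma Sep.disjoint {A B : Set (ℝ × ℝ)} (h : Sep A B) : Disjoint (interior A) (interior B) := by
  obtain ⟨a, b, d, h0, h1, h2⟩ := h
  rw [Set.disjoint_left]
  intro z hA hB
  have hc : ContinuousAt (fun t : ℝ => (z.1 + t * a, z.2 + t * b)) 0 := by fun_prop
  have : ∀ᶠ t in 𝓝 (0 : ℝ), (z.1 + t * a, z.2 + t * b) ∈ A :=
    hc.eventually (p := fun w => w ∈ A) (by simpa using mem_interior_iff_mem_nhds.1 hA)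
  obtain ⟨t, ht, t0⟩ := ((this.filter_mono nhdsWithin_le_nhds).and
    (self_mem_nhdsWithin (s := Ioi (0 : ℝ)))).exists
  have e1 := h1 _ ht
  have e2 := h2 _ (interior_subset hB)
  have := mul_pos (mem_Ioi.1 t0) h0
  simp only at e1
  nlinarith

structure Sq where
  x : ℝ
  y : ℝ
  θ : ℝ
  s : ℝ

def Sq.set (q : Sq) : Set (ℝ × ℝ) := square q.x q.y q.θ q.s

/-- a packing of `n` squares of total side `S`, each inside one of the regions `Rs` -/
def Pk (Rs : List (Set (ℝ × ℝ))) (n : ℕ) (S : ℝ) : Prop :=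
  ∃ L : List Sq, L.length = n ∧ (L.map Sq.s).sum = S ∧
    (∀ q ∈ L, 0 ≤ q.s ∧ ∃ R ∈ Rs, q.set ⊆ R) ∧ L.Pairwise fun q q' => Sep q.set q'.set

lemma Pk.add {R : Set (ℝ × ℝ)} {Rs : List (Set (ℝ × ℝ))} {n n' : ℕ} {S S' : ℝ}
    (h : Pk [R] n S) (h' : Pk Rs n' S') (hs : ∀ R' ∈ Rs, Sep R R') :
    Pk (R :: Rs) (n + n') (S + S') := by
  obtain ⟨L, a1, a2, a3, a4⟩ := h
  obtain ⟨L', b1, b2, b3, b4⟩ := h'
  refine ⟨L ++ L', by simp [a1, b1], by simp [a2, b2], fun q hq => ?_,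
    List.pairwise_append.2 ⟨a4, b4, fun q hq q' hq' => ?_⟩⟩
  · rcases List.mem_append.1 hq with hq | hq
    · obtain ⟨c, R', hR, hq⟩ := a3 q hq
      exact ⟨c, R', by simp_all, hq⟩
    · obtain ⟨c, R', hR, hq⟩ := b3 q hq
      exact ⟨c, R', by simp_all, hq⟩
  · obtain ⟨-, R1, hR1, hq⟩ := a3 q hq
    obtain ⟨-, R2, hR2, hq'⟩ := b3 q' hq'
    obtain rfl : R1 = R := by simpa using hR1
    exact (hs R2 hR2).mono hq hq'

lemma Pk.collapse {U : Set (ℝ × ℝ)} {Rs : List (Set (ℝ × ℝ))} {n n' : ℕ} {S S' : ℝ}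
    (h : Pk Rs n S) (hs : ∀ R ∈ Rs, R ⊆ U) (hn : n = n') (hS : S = S') : Pk [U] n' S' := by
  obtain ⟨L, a1, a2, a3, a4⟩ := h
  refine ⟨L, a1.trans hn, a2.trans hS, fun q hq => ?_, a4⟩
  obtain ⟨c, R, hR, hq⟩ := a3 q hq
  exact ⟨c, U, by simp, hq.trans (hs R hR)⟩

lemma Pk.nil (Rs : List (Set (ℝ × ℝ))) : Pk Rs 0 0 := ⟨[], rfl, rfl, by simp, by simp⟩

lemma Pk.one {R : Set (ℝ × ℝ)} (x y θ s : ℝ) (hs : 0 ≤ s) (h : square x y θ s ⊆ R) :
    Pk [R] 1 s := ⟨[⟨x, y, θ, s⟩], rfl, by simp, by simpa using ⟨hs, h⟩, by simp⟩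

def rect (a b c d : ℝ) : Set (ℝ × ℝ) := Icc a b ×ˢ Icc c d

lemma mem_rect {a b c d : ℝ} {z : ℝ × ℝ} :
    z ∈ rect a b c d ↔ (a ≤ z.1 ∧ z.1 ≤ b) ∧ c ≤ z.2 ∧ z.2 ≤ d := Iff.rfl

lemma rect_sub {a b c d a' b' c' d' : ℝ} (h1 : a' ≤ a) (h2 : b ≤ b') (h3 : c' ≤ c) (h4 : d ≤ d') :
    rect a b c d ⊆ rect a' b' c' d' := prod_mono (Icc_subset_Icc h1 h2) (Icc_subset_Icc h3 h4)

lemma sep_x {a b c d a' b' c' d' : ℝ} (h : b ≤ a') : Sep (rect a b c d) (rect a' b' c' d') :=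
  ⟨1, 0, b, by norm_num, fun z hz => by linarith [hz.1.2], fun z hz => by linarith [hz.1.1]⟩

lemma sep_y {a b c d a' b' c' d' : ℝ} (h : d ≤ c') : Sep (rect a b c d) (rect a' b' c' d') :=
  ⟨0, 1, d, by norm_num, fun z hz => by linarith [hz.2.2], fun z hz => by linarith [hz.2.1]⟩

lemma row (x y s : ℝ) (hs : 0 ≤ s) (i : ℕ) : Pk [rect x (x + i * s) y (y + s)] i (i * s) := by
  induction i with
  | zero => simpa using Pk.nil _
  | succ i ih =>
    have h1 : Pk [rect (x + i * s) (x + i * s + s) y (y + s)] 1 s :=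
      Pk.one (x + i * s) y 0 s hs (by
        rintro _ ⟨u, hu, v, hv, rfl⟩
        simp [mem_rect, hu.1, hu.2, hv.1, hv.2])
    have : (0 : ℝ) ≤ i * s := by positivity
    refine (h1.add ih (by simpa using (sep_x le_rfl).symm)).collapse ?_ (by ring)
      (by push_cast; ring)
    simp only [List.mem_cons, List.not_mem_nil, or_false, forall_eq_or_imp, forall_eq]
    push_cast
    exact ⟨rect_sub (by linarith) (by linarith) le_rfl le_rfl,
      rect_sub le_rfl (by linarith) le_rfl le_rfl⟩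

lemma grid (x y s : ℝ) (hs : 0 ≤ s) (i j : ℕ) :
    Pk [rect x (x + i * s) y (y + j * s)] (i * j) (i * j * s) := by
  induction j with
  | zero => simpa using Pk.nil _
  | succ j ih =>
    have : (0 : ℝ) ≤ j * s := by positivity
    refine ((row x (y + j * s) s hs i).add ih (by simpa using (sep_y le_rfl).symm)).collapse ?_
      (by ring) (by push_cast; ring)
    simp only [List.mem_cons, List.not_mem_nil, or_false, forall_eq_or_imp, forall_eq]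
    push_cast
    exact ⟨rect_sub le_rfl le_rfl (by linarith) (by linarith),
      rect_sub le_rfl le_rfl le_rfl (by linarith)⟩

lemma scale_mem {t : ℝ} (ht : 0 < t) {q : Sq} {z : ℝ × ℝ}
    (hz : z ∈ Sq.set ⟨t * q.x, t * q.y, q.θ, t * q.s⟩) : ∃ w ∈ q.set, z = (t * w.1, t * w.2) := by
  obtain ⟨u, hu, v, hv, rfl⟩ := hz
  refine ⟨_, ⟨u / t, ⟨div_nonneg hu.1 ht.le, (div_le_iff₀' ht).2 hu.2⟩, v / t,
    ⟨div_nonneg hv.1 ht.le, (div_le_iff₀' ht).2 hv.2⟩, rfl⟩, ?_⟩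
  ext <;> simp only <;> field_simp

lemma Pk.scale {A t : ℝ} {n : ℕ} {S : ℝ} (h : Pk [rect 0 A 0 A] n S) (ht : 0 < t) :
    Pk [rect 0 (t * A) 0 (t * A)] n (t * S) := by
  obtain ⟨L, a1, a2, a3, a4⟩ := h
  refine ⟨L.map fun q => ⟨t * q.x, t * q.y, q.θ, t * q.s⟩, by simpa using a1, ?_, ?_, ?_⟩
  · rw [← a2, List.map_map, ← List.sum_map_mul_left]; rfl
  · simp only [List.mem_map, List.mem_singleton, exists_eq_left] at a3 ⊢
    rintro _ ⟨q, hq, rfl⟩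
    refine ⟨mul_nonneg ht.le (a3 q hq).1, fun z hz => ?_⟩
    obtain ⟨w, hw, rfl⟩ := scale_mem ht hz
    obtain ⟨⟨b1, b2⟩, b3, b4⟩ := (a3 q hq).2 hw
    exact ⟨⟨mul_nonneg ht.le b1, mul_le_mul_of_nonneg_left b2 ht.le⟩, mul_nonneg ht.le b3,
      mul_le_mul_of_nonneg_left b4 ht.le⟩
  · refine List.pairwise_map.2 (a4.imp ?_)
    rintro q q' ⟨a, b, d, h0, h1, h2⟩
    refine ⟨a, b, t * d, h0, fun z hz => ?_, fun z hz => ?_⟩
    · obtain ⟨w, hw, rfl⟩ := scale_mem ht hz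
      nlinarith [h1 w hw]
    · obtain ⟨w, hw, rfl⟩ := scale_mem ht hz
      nlinarith [h2 w hw]

/-- complete a packing of the `a × a` corner by unit squares -/
lemma Pk.embed {a l n : ℕ} {S : ℝ} (h : Pk [rect 0 a 0 a] n S) :
    Pk [rect 0 (a + l) 0 (a + l)] (n + l * (2 * a + l)) (S + l * (2 * a + l)) := by
  have h1 := grid a 0 1 zero_le_one l a
  have h2 := grid 0 a 1 zero_le_one (a + l) l
  have : (0 : ℝ) ≤ a := by positivity
  have : (0 : ℝ) ≤ l := by positivity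
  refine (h.add (h1.add h2 ?_) ?_).collapse ?_ (by ring) (by push_cast; ring)
  all_goals simp only [List.mem_cons, List.not_mem_nil, or_false, forall_eq_or_imp, forall_eq]
  · exact sep_y (by simp)
  · exact ⟨sep_x le_rfl, sep_y le_rfl⟩
  · push_cast
    refine ⟨?_, ?_, ?_⟩ <;> exact rect_sub (by linarith) (by linarith) (by linarith) (by linarith)

lemma Pk.le_f {n : ℕ} {S : ℝ} (h : Pk [rect 0 1 0 1] n S) : S ≤ f n := by
  obtain ⟨L, rfl, a2, a3, a4⟩ := h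
  refine le_csSup ⟨2 * L.length, ?_⟩ ⟨fun i => L[i].x, fun i => L[i].y, fun i => L[i].θ,
    fun i => L[i].s, fun i => (a3 _ (List.getElem_mem _)).1, fun i => ?_, fun i j hij => ?_, ?_⟩
  · rintro _ ⟨x, y, θ, s, h0, h1, -, rfl⟩
    have : ∀ i, s i ≤ 2 := fun i => by
      have e1 := h1 i ⟨0, ⟨le_rfl, h0 i⟩, 0, ⟨le_rfl, h0 i⟩, rfl⟩
      have e2 := h1 i ⟨s i, ⟨h0 i, le_rfl⟩, 0, ⟨le_rfl, h0 i⟩, rfl⟩
      simp only [mem_prod, mem_Icc, zero_mul, add_zero, sub_zero] at e1 e2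
      have c1 : (s i * Real.cos (θ i)) ^ 2 ≤ 1 := by nlinarith [e1.1.1, e1.1.2, e2.1.1, e2.1.2]
      have c2 : (s i * Real.sin (θ i)) ^ 2 ≤ 1 := by nlinarith [e1.2.1, e1.2.2, e2.2.1, e2.2.2]
      have c3 : s i ^ 2 ≤ 2 := by
        have : s i ^ 2 = (s i * Real.cos (θ i)) ^ 2 + (s i * Real.sin (θ i)) ^ 2 := by
          linear_combination (-s i ^ 2) * Real.cos_sq_add_sin_sq (θ i)
        linarith
      nlinarith [h0 i]
    calc ∑ i, s i ≤ ∑ _i : Fin L.length, (2 : ℝ) := Finset.sum_le_sum fun i _ => this i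
      _ = _ := by simp [mul_comm]
  · obtain ⟨-, R, hR, hq⟩ := a3 _ (List.getElem_mem (l := L) i.2)
    obtain rfl : R = rect 0 1 0 1 := by simpa using hR
    exact hq
  · rcases lt_or_gt_of_ne hij with h | h
    · exact (List.pairwise_iff_getElem.1 a4 i j i.2 j.2 h).disjoint
    · exact (List.pairwise_iff_getElem.1 a4 j i j.2 i.2 h).symm.disjoint
  · rw [← a2, ← Fin.sum_univ_fun_getElem]; rfl

end Pool.Agent.MP_a421c2_co
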