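import Mathlib.Data.Int.Star
import Mathlib.Algebra.Order.Ring.Star
import Mathlib.Analysis.SpecialFunctions.Trigonometric.Basic
import Pool.Agent.MP_a421c2_co.Pack

/-! The packing with one square turned by 45 degrees. -/

namespace Pool.Agent.MP_a421c2_co

open Set

def dia (x y h : ℝ) : Set (ℝ × ℝ) :=
  {z | (-h ≤ (z.1 - x) + (z.2 - y) ∧ (z.1 - x) + (z.2 - y) ≤ h) ∧
    -h ≤ (z.2 - y) - (z.1 - x) ∧ (z.2 - y) - (z.1 - x) ≤ h}

lemma pk_dia (x y h : ℝ) (h0 : 0 ≤ h) : Pk [dia x y h] 1 (√2 * h) := by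
  refine Pk.one x (y - h) (Real.pi / 4) _ (by positivity) ?_
  rintro _ ⟨u, hu, v, hv, rfl⟩
  have s0 : 0 ≤ √2 := by positivity
  have s2 : √2 * √2 = 2 := Real.mul_self_sqrt (by norm_num)
  have a1 := mul_le_mul_of_nonneg_left hu.2 s0
  have a2 := mul_le_mul_of_nonneg_left hv.2 s0
  have a3 := mul_nonneg s0 hu.1
  have a4 := mul_nonneg s0 hv.1
  rw [← mul_assoc, s2] at a1 a2
  simp only [dia, Real.cos_pi_div_four, Real.sin_pi_div_four, mem_ofPred_eq]
  refine ⟨⟨?_, ?_⟩, ?_, ?_⟩ <;> linarith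

lemma dia_sub (x y h : ℝ) : dia x y h ⊆ rect (x - h) (x + h) (y - h) (y + h) := by
  rintro z ⟨⟨a1, a2⟩, a3, a4⟩
  exact ⟨⟨by linarith, by linarith⟩, by linarith, by linarith⟩

lemma sep_dia_left {x y h a b c d : ℝ} (H : h ≤ (x - b) + (y - d)) :
    Sep (dia x y h) (rect a b c d) :=
  ⟨-1, -1, -b - d, by norm_num, fun z hz => by linarith [hz.1.1],
    fun z hz => by linarith [hz.1.2, hz.2.2]⟩

lemma sep_dia_right {x y h a b c d : ℝ} (H : h ≤ (a - x) + (y - d)) :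
    Sep (dia x y h) (rect a b c d) :=
  ⟨1, -1, a - d, by norm_num, fun z hz => by linarith [hz.2.1],
    fun z hz => by linarith [hz.1.1, hz.2.2]⟩

lemma Pk.cast {a b c d a' b' c' d' S S' : ℝ} {n : ℕ} (h : Pk [rect a b c d] n S) (h1 : a = a')
    (h2 : b = b') (h3 : c = c') (h4 : d = d') (hS : S = S') : Pk [rect a' b' c' d'] n S' := by
  subst h1 h2 h3 h4 hS; exact h

/-- `(2j+1)² + 1` squares in a square of side `2j+1` -/
lemma diamond (j : ℕ) (hj : 1 ≤ j) :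
    Pk [rect 0 (2 * j + 1 : ℕ) 0 (2 * j + 1 : ℕ)] ((2 * j + 1) ^ 2 + 1)
      ((2 * j + 1) ^ 2 + (√2 * (1 / 2 - 5 / 24 * (j : ℝ)⁻¹) - 2 / 3 - 5 / 6 * (j : ℝ)⁻¹)) := by
  have j1 : (1 : ℝ) ≤ j := by exact_mod_cast hj
  obtain ⟨e, he⟩ : ∃ e, e = (j : ℝ)⁻¹ := ⟨_, rfl⟩
  have je : j * e = 1 := by rw [he]; field_simp
  have e0 : 0 < e := by rw [he]; positivity
  have e1 : e ≤ 1 := by nlinarith
  rw [← he]
  have ee : e * e ≤ 1 := by nlinarith
  have p1 : Pk [rect 0 (j + 1 / 6) 0 (1 + e / 6)] j (j + 1 / 6) :=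
    (row 0 0 (1 + e / 6) (by linarith) j).cast rfl (by linarith) rfl (by ring) (by linarith)
  have p2 : Pk [rect (j + 5 / 6 + 5 / 6 * e) (2 * j + 1) 0 (1 - 5 / 6 * e)] (j + 1)
      (j + 1 / 6 - 5 / 6 * e) :=
    (row (j + 5 / 6 + 5 / 6 * e) 0 (1 - 5 / 6 * e) (by linarith) (j + 1)).cast rfl
      (by push_cast; linarith) rfl (by ring) (by push_cast; linarith)
  have p3 : Pk [rect 0 (j - e / 12) (1 + e / 6) (2 * j + 1)] (j * (2 * j))
      (2 * j ^ 2 - 1 / 6) :=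
    (grid 0 (1 + e / 6) (1 - e * e / 12) (by linarith) j (2 * j)).cast rfl
      (by linear_combination (-e / 12) * je) rfl
      (by push_cast; linear_combination (-e / 6) * je)
      (by push_cast; linear_combination (-(j * e + 1) / 6) * je)
  have p4 : Pk [rect (j - e / 12) (j + 1 - 5 / 12 * e) (5 / 3) (2 * j + 1)] (1 * (2 * j))
      (2 * j - 2 / 3) :=
    (grid (j - e / 12) (5 / 3) (1 - e / 3) (by linarith) 1 (2 * j)).cast rfl
      (by push_cast; ring) rfl (by push_cast; linarith) (by push_cast; linarith)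
  have p5 : Pk [rect (j + 1 - 5 / 12 * e) (2 * j + 1) (1 - 5 / 6 * e) (2 * j + 1)] (j * (2 * j))
      (2 * j ^ 2 + 5 / 6) :=
    (grid (j + 1 - 5 / 12 * e) (1 - 5 / 6 * e) (1 + 5 / 12 * (e * e)) (by positivity) j
      (2 * j)).cast rfl (by linear_combination (5 / 12 * e) * je) rfl
      (by push_cast; linear_combination (5 / 6 * e) * je)
      (by push_cast; linear_combination (5 / 6 * (j * e + 1)) * je)
  have p6 := pk_dia (j + 1 / 2 - e / 4) (7 / 6 + 5 / 24 * e) (1 / 2 - 5 / 24 * e) (by linarith)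
  refine (p6.add (p1.add (p2.add (p3.add (p4.add p5 ?_) ?_) ?_) ?_) ?_).collapse ?_ (by ring)
    (by ring)
  all_goals simp only [List.mem_cons, List.not_mem_nil, or_false, forall_eq_or_imp, forall_eq]
  · exact sep_x le_rfl
  · exact ⟨sep_x le_rfl, sep_x (by linarith)⟩
  · exact ⟨sep_y (by linarith), sep_y (by linarith), sep_y le_rfl⟩
  · exact ⟨sep_x (by linarith), sep_y le_rfl, sep_y (by linarith), sep_x (by linarith)⟩
  · exact ⟨sep_dia_left (by linarith), sep_dia_right (by linarith),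
      (sep_x (by linarith)).symm.mono (dia_sub _ _ _) subset_rfl,
      (sep_y (by linarith)).mono (dia_sub _ _ _) subset_rfl,
      (sep_x (by linarith)).mono (dia_sub _ _ _) subset_rfl⟩
  · push_cast
    refine ⟨(dia_sub _ _ _).trans ?_, ?_, ?_, ?_, ?_, ?_⟩ <;>
      exact rect_sub (by linarith) (by linarith) (by linarith) (by linarith)

/-- `k² + 1` squares in a square of side `k` -/
lemma diamond' (k : ℕ) (hk : 3 ≤ k) :
    ∃ G : ℝ, √2 / 2 - 2 / 3 - 2.3 / (k - 2) ≤ G ∧ G ≤ 1 / 20 ∧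
      Pk [rect 0 k 0 k] (k ^ 2 + 1) (k ^ 2 + G) := by
  obtain ⟨j, l, hl, rfl⟩ : ∃ j l, l ≤ 1 ∧ k = 2 * j + 1 + l :=
    ⟨(k - 1) / 2, (k - 1) % 2, by omega, by omega⟩
  have hj : 1 ≤ j := by omega
  have j1 : (1 : ℝ) ≤ j := by exact_mod_cast hj
  have l1 : (l : ℝ) ≤ 1 := by exact_mod_cast hl
  have l0 : (0 : ℝ) ≤ l := by positivity
  have s1 : √2 ≤ 1.42 := Real.sqrt_le_iff.2 ⟨by norm_num, by norm_num⟩
  have s0 : 0 ≤ √2 := by positivity
  have e0 : 0 < (j : ℝ)⁻¹ := by positivity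
  refine ⟨√2 * (1 / 2 - 5 / 24 * (j : ℝ)⁻¹) - 2 / 3 - 5 / 6 * (j : ℝ)⁻¹, ?_, ?_,
    ((diamond j hj).embed (l := l)).collapse (by simp) (by ring) (by push_cast; ring)⟩
  · have : 1.15 * (j : ℝ)⁻¹ ≤ 2.3 / (((2 * j + 1 + l : ℕ) : ℝ) - 2) := by
      push_cast
      rw [le_div_iff₀ (by linarith), ← div_eq_mul_inv, div_mul_eq_mul_div,
        div_le_iff₀ (by linarith)]
      linarith
    nlinarith
  · nlinarith

lemma diamond'' (k d : ℕ) (hK : 75 ≤ k + d) (hd : 20 * d ≤ k + d) :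
    ∃ G : ℝ, √2 / 2 - 2 / 3 - 2.5 / (k + d) ≤ G ∧ 0 ≤ G ∧ G ≤ 1 / 20 ∧
      Pk [rect 0 k 0 k] (k ^ 2 + 1) (k ^ 2 + G) := by
  obtain ⟨G, h1, h2, h3⟩ := diamond' k (by omega)
  have a1 : (75 : ℝ) ≤ k + d := by exact_mod_cast hK
  have a2 : (20 * d : ℝ) ≤ k + d := by exact_mod_cast hd
  have a3 : 2.3 / ((k : ℝ) - 2) ≤ 2.5 / (k + d) := by
    rw [div_le_div_iff₀ (by linarith) (by linarith)]; linarith
  have a4 : 2.5 / ((k : ℝ) + d) ≤ 2.5 / 75 := by gcongr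
  have s1 : 1.414 ≤ √2 := Real.le_sqrt_of_sq_le (by norm_num)
  exact ⟨G, by linarith, by linarith, h2, h3⟩

lemma bound_pos (k d : ℕ) (hK : 75 ≤ k + d) (hd : 20 * d ≤ k + d) :
    (k + d : ℝ) + d / (k + d) + (√2 / 2 - 2 / 3 - (d + 3) / (k + d)) / (k + d) ≤
      f ((k + d) ^ 2 + 2 * d + 1) := by
  obtain ⟨G, h1, h0, h2, h3⟩ := diamond'' k d hK hd
  have a1 : (75 : ℝ) ≤ k + d := by exact_mod_cast hK
  have a2 : (20 * d : ℝ) ≤ k + d := by exact_mod_cast hd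
  have k0 : (0 : ℝ) < k := by linarith
  have d0 : (0 : ℝ) ≤ d := by positivity
  have s1 : √2 ≤ 1.42 := Real.sqrt_le_iff.2 ⟨by norm_num, by norm_num⟩
  have p1 : Pk [rect 0 (k + 1 : ℕ) 0 (k + 1 : ℕ)] (k ^ 2 + 1) ((k + 1) * k + (G + G / k)) :=
    (h3.scale (t := (k + 1) / k) (by positivity)).cast rfl (by push_cast; field_simp) rfl
      (by push_cast; field_simp) (by field_simp)
  have p2 : Pk [rect 0 1 0 1] ((k + d) ^ 2 + 2 * d + 1)
      (k + d + (d + (G + G / k)) / (k + d + 1)) :=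
    (((p1.embed (l := d)).scale (t := 1 / (k + d + 1)) (by positivity)).cast (b' := 1) (d' := 1)
      rfl (by push_cast; field_simp; ring) rfl (by push_cast; field_simp; ring) rfl).collapse
      (by simp) (by ring) (by push_cast; field_simp; ring)
  refine le_trans ?_ p2.le_f
  have : 0 ≤ G / k := by positivity
  generalize (k : ℝ) + d = K at h1 a1 a2 ⊢
  have K0 : 0 < K := by linarith
  have b1 : K * (√2 / 2 - 2 / 3) - 2.5 ≤ K * (G + G / k) := by
    have := mul_le_mul_of_nonneg_left h1 K0.le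
    rw [mul_sub, mul_div_cancel₀ _ K0.ne'] at this
    nlinarith
  rw [add_assoc, add_le_add_iff_left, ← add_div, div_le_div_iff₀ K0 (by linarith),
    ← mul_le_mul_iff_left₀ K0]
  have e : (d + (√2 / 2 - 2 / 3 - (d + 3) / K)) * (K + 1) * K =
      (K + 1) * (d * K + (√2 / 2 - 2 / 3) * K - d - 3) := by field_simp; ring
  rw [e]
  nlinarith [mul_le_mul_of_nonneg_left b1 K0.le]

lemma bound_neg (k d : ℕ) (hK : 75 ≤ k + d) (hd : 20 * d ≤ k + d) (r : ℕ)
    (hr : r + 2 * d = (k + d) ^ 2 + 1) :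
    (k + d : ℝ) - d / (k + d) + (√2 / 2 - 2 / 3 - (d + 3) / (k + d)) / (k + d) ≤ f r := by
  obtain ⟨G, h1, h0, h2, h3⟩ := diamond'' k d hK hd
  obtain ⟨a, rfl⟩ : ∃ a, k = a + 1 := ⟨k - 1, by omega⟩
  have a1 : (75 : ℝ) ≤ a + 1 + d := by exact_mod_cast hK
  have a2 : (20 * d : ℝ) ≤ a + 1 + d := by exact_mod_cast hd
  have k0 : (0 : ℝ) < a := by linarith
  have d0 : (0 : ℝ) ≤ d := by positivity
  have s1 : 1.414 ≤ √2 := Real.le_sqrt_of_sq_le (by norm_num)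
  push_cast at h1 h3 ⊢
  have p1 : Pk [rect 0 a 0 a] ((a + 1) ^ 2 + 1) ((a + 1) * a + (G - G / (a + 1))) :=
    (h3.scale (t := a / (a + 1)) (by positivity)).cast rfl (by field_simp) rfl
      (by field_simp) (by field_simp; ring)
  have p2 : Pk [rect 0 1 0 1] r (a + 1 + d + (-d + (G - G / (a + 1))) / (a + d)) :=
    (((p1.embed (l := d)).scale (t := 1 / (a + d)) (by positivity)).cast (b' := 1) (d' := 1) rfl
      (by field_simp) rfl (by field_simp) rfl).collapse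
      (by simp) (by nlinarith) (by field_simp; ring)
  refine le_trans ?_ p2.le_f
  have g1 : (a + 1 + d) * (G / (a + 1)) ≤ 0.06 := by
    rw [← mul_div_assoc, div_le_iff₀ (by linarith)]; nlinarith
  rw [show (a : ℝ) + d = a + 1 + d - 1 by linarith]
  generalize (a : ℝ) + 1 + d = K at h1 a1 a2 g1 ⊢
  have K0 : 0 < K := by linarith
  have b1 : K * (√2 / 2 - 2 / 3) - 2.56 ≤ K * (G - G / (a + 1)) := by
    have := mul_le_mul_of_nonneg_left h1 K0.le
    rw [mul_sub, mul_div_cancel₀ _ K0.ne'] at this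
    nlinarith
  rw [sub_eq_add_neg, ← neg_div, add_assoc, add_le_add_iff_left, ← add_div,
    div_le_div_iff₀ K0 (by linarith), ← mul_le_mul_iff_left₀ K0]
  have e : (-d + (√2 / 2 - 2 / 3 - (d + 3) / K)) * (K - 1) * K =
      (K - 1) * (-d * K + (√2 / 2 - 2 / 3) * K - d - 3) := by field_simp; ring
  rw [e]
  nlinarith [mul_le_mul_of_nonneg_left b1 K0.le]

end Pool.Agent.MP_a421c2_co
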